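import Pool.Agent.H.MP_d82c50_lc.E

namespace Pool.Agent.Results.MP_d82c50_lc.Hard

open Pool.Agent.Lib.CX Pool.Agent.Lib.ER

/-- the numbers of rows and columns in unary, the table of entries, the rank bound and the tolerance -/
abbrev Inst := List Unit × List Unit × List (List ℚ) × ℕ × ℚ

/-- the input matrix -/
def mat (a : Inst) : Matrix (Fin a.1.length) (Fin a.2.1.length) ℝ := fun i j => ((a.2.2.1.getD i []).getD j 0 : ℚ)

/-- low-rank approximation in the number of changed entries -/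
def LRA0 (a : Inst) : Prop := ∃ B : Matrix (Fin a.1.length) (Fin a.2.1.length) ℝ, B.rank ≤ a.2.2.2.1 ∧
  (Set.ncard {p : Fin a.1.length × Fin a.2.1.length | mat a p.1 p.2 ≠ B p.1 p.2} : ℚ) < a.2.2.2.2

/-- low-rank approximation in the sum of the absolute values of the changes -/
def LRA1 (a : Inst) : Prop := ∃ B : Matrix (Fin a.1.length) (Fin a.2.1.length) ℝ, B.rank ≤ a.2.2.2.1 ∧
  ∑ i, ∑ j, |mat a i j - B i j| < (a.2.2.2.2 : ℝ)

theorem result : (∀ (α : Type) [Enc α] (A : α → Prop), Red A ETR → Red A LRA0) ∧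
    ∀ (α : Type) [Enc α] (A : α → Prop), Red A ETR → Red A LRA1 := by
  classical
  have e : LRA0 = H.MP_d82c50_lc.L0 := funext fun a => propext (exists_congr fun B => and_congr_right' (by
    rw [← Fintype.sum_prod_type', Set.ncard_eq_toFinset_card', Set.toFinset_setOf, Finset.card_filter]
    simp only [ne_eq, ite_not]
    rfl))
  rw [e]
  obtain ⟨g, hg, h⟩ := H.MP_d82c50_lc.hard0
  obtain ⟨g', hg', k⟩ := H.MP_d82c50_lc.hard1
  exact ⟨fun α _ A ⟨f, hf, h'⟩ => ⟨fun a => g (f a), hg.comp hf, fun a => (h' a).trans (h _)⟩,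
    fun α _ A ⟨f, hf, h'⟩ => ⟨fun a => g' (f a), hg'.comp hf, fun a => (h' a).trans (k _)⟩⟩

end Pool.Agent.Results.MP_d82c50_lc.Hard
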